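import Mathlib

/-!
# A vertical curve with Zariski dense orbit and small arithmetic degree

`X = (ℙ¹)³` with the model `(ℙ¹)³` over `ℤ`, `f (x, y, z) = (x², y², z)`, `V = {(2, 3)} × ℙ¹`, and
`H = O(1) ⊠ O(1) ⊠ O(1)` with the Fubini-Study metrics multiplied by `e⁻¹`. The orbit of the curve
`V` is Zariski dense: it contains the points `(2 ^ 2ⁿ, 3 ^ 2ⁿ, 5 ^ 2ⁿ)`. The curve `fⁿ(V)` has degree
one over the last factor and lies over a point whose height grows like `2ⁿ`, so that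
`α₂(f; V) = 2`. But `α₂(f) ≥ λ₂(f) = 4`. So statement (ii) of the conjecture fails.

The arithmetic intersection numbers are those of Gillet and Soulé for hermitian line bundles
`A 0 ⊠ A 1 ⊠ A 2` on products of copies of `ℙ¹` over `ℤ` and of integral points: multilinearity and the
Künneth formula (projection formula) reduce them to the number `deg (ĉ₁ L · ĉ₁ M)` on `ℙ¹` over `ℤ`,
for which we take the usual inductive formula, and to the heights of points.
-/

set_option autoImplicit false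

open MeasureTheory Filter Topology

namespace Pool.Agent.Results.MP_cefe55_nt.VerticalCurve

/-- The Laplacian `∂²/∂x² + ∂²/∂y²` of a function of `z = x + i y`. -/
noncomputable def lap (g : ℂ → ℝ) (z : ℂ) : ℝ :=
  iteratedDeriv 2 (fun t : ℝ => g (z + t)) 0 +
    iteratedDeriv 2 (fun t : ℝ => g (z + t * Complex.I)) 0

/-- A hermitian line bundle on `ℙ¹` over `ℤ` (homogeneous coordinates `(x₀ : x₁)`, affine coordinate
`z = x₁ / x₀`): the line bundle `O(deg)` with a smooth metric on `ℙ¹(ℂ)` invariant under complex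
conjugation. The metric is given by `g0 = -log ‖x₀ ^ deg‖` as a function of `z` and
`g1 = -log ‖x₁ ^ deg‖` as a function of `w = 1 / z`. -/
structure HermitianLineBundle where
  deg : ℤ
  g0 : ℂ → ℝ
  g1 : ℂ → ℝ
  smooth0 : ContDiff ℝ (⊤ : ℕ∞) g0
  smooth1 : ContDiff ℝ (⊤ : ℕ∞) g1
  glue : ∀ w : ℂ, w ≠ 0 → g1 w = g0 w⁻¹ + deg * Real.log ‖w‖
  real : ∀ z : ℂ, g0 (starRingEnd ℂ z) = g0 z

namespace HermitianLineBundle

/-- The pull-back under `z ↦ z ^ N`. -/
def pow (L : HermitianLineBundle) (N : ℕ) : HermitianLineBundle where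
  deg := L.deg * N
  g0 := fun z => L.g0 (z ^ N)
  g1 := fun w => L.g1 (w ^ N)
  smooth0 := L.smooth0.comp (contDiff_id.pow N)
  smooth1 := L.smooth1.comp (contDiff_id.pow N)
  glue := by
    intro w hw
    rw [L.glue _ (pow_ne_zero N hw), inv_pow, norm_pow, Real.log_pow]
    push_cast
    ring
  real := by
    intro z
    rw [← map_pow, L.real]

/-- The arithmetic intersection number `deg (ĉ₁ L · ĉ₁ M)` on `ℙ¹` over `ℤ`: the arithmetic degree of
`M` on the divisor of the section `x₀ ^ deg L` of `L` (which is `deg L` times the point at infinity),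
minus the integral of `log ‖x₀ ^ deg L‖` against the curvature form `c₁ M = (1 / 2 π) Δ g0 dx dy`. -/
noncomputable def pair (L M : HermitianLineBundle) : ℝ :=
  L.deg * M.g1 0 + 1 / (2 * Real.pi) * ∫ z : ℂ, L.g0 z * lap M.g0 z

/-- `O(deg)` is ample, the curvature is positive, and the sections `x₀ ^ deg`, `x₁ ^ deg` have norm
`≤ e^(-ε) < 1` everywhere (the same holds then for the other monomials of degree `deg`). -/
structure IsArithmeticallyAmple (L : HermitianLineBundle) : Prop where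
  deg_pos : 0 < L.deg
  curv0 : ∀ z, 0 < lap L.g0 z
  curv1 : ∀ z, 0 < lap L.g1 z
  small : ∃ ε : ℝ, 0 < ε ∧ ∀ z, ε ≤ L.g0 z ∧ ε ≤ L.g1 z

end HermitianLineBundle

open HermitianLineBundle

/-- The factors of the product subschemes: the closure of the rational point `z = a`, `a ∈ ℤ`, in
`ℙ¹` over `ℤ`, and `ℙ¹` over `ℤ` itself. -/
inductive Factor
  | point (a : ℤ)
  | line

/-- The geometric degree (as many line bundles as the dimension of the generic fibre) or the
arithmetic degree (one more line bundle) of a factor; `0` in all other cases. -/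
noncomputable def factorDeg : Factor → List HermitianLineBundle → ℝ
  | .point _, [] => 1
  | .point a, [L] => L.g0 a
  | .line, [L] => L.deg
  | .line, [L, M] => L.pair M
  | _, _ => 0

/-- The arithmetic intersection number on the product `Z = Z₀ × Z₁ × Z₂ ⊆ (ℙ¹)³` over `ℤ` of `k`
(the dimension of `Z` over `ℤ`, including the dimension `1` of the base) hermitian line bundles
`A s = A s 0 ⊠ A s 1 ⊠ A s 2`, by multilinearity and the Künneth formula: the sum, over all choices of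
one factor `σ s` for each `s`, of the products of the degrees of the factors. -/
noncomputable def arithDeg (Z : Fin 3 → Factor) {k : ℕ} (A : Fin k → Fin 3 → HermitianLineBundle) :
    ℝ :=
  ∑ σ : Fin k → Fin 3, ∏ i, factorDeg (Z i)
    (((List.finRange k).filter (fun s => σ s = i)).map (fun s => A s i))

/-- The pull-back of `H = H 0 ⊠ H 1 ⊠ H 2` under the `n`-th iterate of
`f (z 0, z 1, z 2) = (z i ^ e i)`. -/
def pull (e : Fin 3 → ℕ) (n : ℕ) (H : Fin 3 → HermitianLineBundle) : Fin 3 → HermitianLineBundle :=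
  fun i => (H i).pow (e i ^ n)

/-- `limsup (u n) ^ (1 / n)`. -/
noncomputable def growth (u : ℕ → ℝ) : EReal :=
  limsup (fun n : ℕ => (((u n) ^ (1 / (n : ℝ)) : ℝ) : EReal)) atTop

/-- The arithmetic degree `α_k(f)`. -/
noncomputable def alphaMap (e : Fin 3 → ℕ) (H : Fin 3 → HermitianLineBundle) (k : ℕ) : EReal :=
  growth fun n => arithDeg (fun _ => Factor.line) (k := 4) fun s =>
    if (s : ℕ) < k then pull e n H else H

/-- The arithmetic degree `α_(k+1)(f; Z)` of the product subvariety `Z` of dimension `k`. -/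
noncomputable def alphaCycle (e : Fin 3 → ℕ) (H : Fin 3 → HermitianLineBundle) (k : ℕ)
    (Z : Fin 3 → Factor) : EReal :=
  growth fun n => arithDeg Z (k := k + 1) fun _ => pull e n H

/-- The complex points in the affine part `ℂ³` of `(ℙ¹)³` of a product subvariety. -/
def points (Z : Fin 3 → Factor) : Set (Fin 3 → ℂ) :=
  {x | ∀ i, ∀ a : ℤ, Z i = Factor.point a → x i = a}

/-- The map `f` on the affine part. -/
def affineMap (e : Fin 3 → ℕ) (x : Fin 3 → ℂ) : Fin 3 → ℂ := fun i => x i ^ e i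

/-- The exponents of `f (z 0, z 1, z 2) = (z 0 ^ 2, z 1 ^ 2, z 2)`. -/
def e : Fin 3 → ℕ := ![2, 2, 1]

/-- The curve `V = {(2, 3)} × ℙ¹`. -/
def V : Fin 3 → Factor := ![Factor.point 2, Factor.point 3, Factor.line]


/-! ### The Fubini-Study metric -/

/-- `O(1)` with the Fubini-Study metric multiplied by `e^(-c)`. -/
noncomputable def fs (c : ℝ) : HermitianLineBundle where
  deg := 1
  g0 := fun z => 1 / 2 * Real.log (1 + ‖z‖ ^ 2) + c
  g1 := fun z => 1 / 2 * Real.log (1 + ‖z‖ ^ 2) + c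
  smooth0 := (contDiff_const.mul ((contDiff_const.add (contDiff_norm_sq ℝ)).log
    fun z => by positivity)).add contDiff_const
  smooth1 := (contDiff_const.mul ((contDiff_const.add (contDiff_norm_sq ℝ)).log
    fun z => by positivity)).add contDiff_const
  glue := by
    intro w hw
    have hw' : 0 < ‖w‖ := norm_pos_iff.2 hw
    have h1 : (1 : ℝ) + ‖w⁻¹‖ ^ 2 = (1 + ‖w‖ ^ 2) / ‖w‖ ^ 2 := by
      rw [norm_inv]
      field_simp
      ring
    rw [h1, Real.log_div (by positivity) (by positivity), Real.log_pow]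
    push_cast
    ring
  real := by
    intro z
    simp

theorem iter_two {a b a' b' : ℝ → ℝ} {a2 b2 : ℝ} (c : ℝ) (ha : ∀ t, HasDerivAt a (a' t) t)
    (hb : ∀ t, HasDerivAt b (b' t) t) (ha' : HasDerivAt a' a2 0) (hb' : HasDerivAt b' b2 0) :
    iteratedDeriv 2 (fun t => 1 / 2 * Real.log (1 + (a t ^ 2 + b t ^ 2)) + c) 0 =
      ((a' 0 ^ 2 + a 0 * a2 + b' 0 ^ 2 + b 0 * b2) * (1 + (a 0 ^ 2 + b 0 ^ 2)) -
        2 * (a 0 * a' 0 + b 0 * b' 0) ^ 2) / (1 + (a 0 ^ 2 + b 0 ^ 2)) ^ 2 := by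
  have hpos : ∀ t, (0 : ℝ) < 1 + (a t ^ 2 + b t ^ 2) := fun t => by positivity
  have hd : ∀ t, HasDerivAt (fun t => 1 + (a t ^ 2 + b t ^ 2))
      (2 * (a t * a' t + b t * b' t)) t := by
    intro t
    have h := (((ha t).pow 2).add ((hb t).pow 2)).const_add 1
    have e1 : ((2 : ℕ) : ℝ) * a t ^ (2 - 1) * a' t + ((2 : ℕ) : ℝ) * b t ^ (2 - 1) * b' t =
        2 * (a t * a' t + b t * b' t) := by
      norm_num
      ring
    rw [e1] at h
    exact h
  have h1 : deriv (fun t => 1 / 2 * Real.log (1 + (a t ^ 2 + b t ^ 2)) + c) =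
      fun t => (a t * a' t + b t * b' t) / (1 + (a t ^ 2 + b t ^ 2)) := by
    funext t
    have h := (((hd t).log (hpos t).ne').const_mul (1 / 2)).add_const c
    rw [h.deriv]
    ring
  rw [iteratedDeriv_succ, iteratedDeriv_one, h1]
  have h2 : HasDerivAt (fun t => a t * a' t + b t * b' t)
      (a' 0 * a' 0 + a 0 * a2 + (b' 0 * b' 0 + b 0 * b2)) 0 :=
    ((ha 0).mul ha').add ((hb 0).mul hb')
  have h3 := h2.div (hd 0) (hpos 0).ne'
  have h4 : deriv (fun t => (a t * a' t + b t * b' t) / (1 + (a t ^ 2 + b t ^ 2))) 0 = _ := h3.deriv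
  rw [h4]
  congr 1
  ring

theorem lap_pow (c : ℝ) (N : ℕ) (z : ℂ) :
    lap ((fs c).pow N).g0 z = 2 * ‖(N : ℂ) * z ^ (N - 1)‖ ^ 2 / (1 + ‖z ^ N‖ ^ 2) ^ 2 := by
  -- the derivatives along the line in direction `v`
  have hline : ∀ (v : ℂ) (t : ℝ), HasDerivAt (fun t : ℝ => z + (t : ℂ) * v) v t := by
    intro v t
    have h := (((Complex.ofRealCLM.hasDerivAt (x := t)).mul_const v).const_add z)
    simpa using h
  have hpw : ∀ (v : ℂ) (M : ℕ) (t : ℝ), HasDerivAt (fun t : ℝ => (z + (t : ℂ) * v) ^ M)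
      ((M : ℂ) * (z + (t : ℂ) * v) ^ (M - 1) * v) t := fun v M t => (hline v t).pow M
  have hkey : ∀ v : ℂ, iteratedDeriv 2 (fun t : ℝ => ((fs c).pow N).g0 (z + (t : ℂ) * v)) 0 =
      ((((N : ℂ) * z ^ (N - 1) * v).re ^ 2 +
        (z ^ N).re * ((N : ℂ) * (((N - 1 : ℕ) : ℂ) * z ^ (N - 1 - 1) * v) * v).re +
        ((N : ℂ) * z ^ (N - 1) * v).im ^ 2 +
        (z ^ N).im * ((N : ℂ) * (((N - 1 : ℕ) : ℂ) * z ^ (N - 1 - 1) * v) * v).im) *
          (1 + ((z ^ N).re ^ 2 + (z ^ N).im ^ 2)) -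
        2 * ((z ^ N).re * ((N : ℂ) * z ^ (N - 1) * v).re +
          (z ^ N).im * ((N : ℂ) * z ^ (N - 1) * v).im) ^ 2) /
        (1 + ((z ^ N).re ^ 2 + (z ^ N).im ^ 2)) ^ 2 := by
    intro v
    have hre : ∀ t : ℝ, HasDerivAt (fun t : ℝ => ((z + (t : ℂ) * v) ^ N).re)
        (((N : ℂ) * (z + (t : ℂ) * v) ^ (N - 1) * v).re) t := fun t =>
      (Complex.reCLM.hasFDerivAt.comp_hasDerivAt t (hpw v N t))
    have him : ∀ t : ℝ, HasDerivAt (fun t : ℝ => ((z + (t : ℂ) * v) ^ N).im)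
        (((N : ℂ) * (z + (t : ℂ) * v) ^ (N - 1) * v).im) t := fun t =>
      (Complex.imCLM.hasFDerivAt.comp_hasDerivAt t (hpw v N t))
    have h2 : HasDerivAt (fun t : ℝ => (N : ℂ) * (z + (t : ℂ) * v) ^ (N - 1) * v)
        ((N : ℂ) * (((N - 1 : ℕ) : ℂ) * (z + ((0 : ℝ) : ℂ) * v) ^ (N - 1 - 1) * v) * v) 0 :=
      ((hpw v (N - 1) 0).const_mul (N : ℂ)).mul_const v
    have hre2 := Complex.reCLM.hasFDerivAt.comp_hasDerivAt (0 : ℝ) h2
    have him2 := Complex.imCLM.hasFDerivAt.comp_hasDerivAt (0 : ℝ) h2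
    have h := iter_two c hre him hre2 him2
    have hfun : (fun t : ℝ => ((fs c).pow N).g0 (z + (t : ℂ) * v)) = fun t : ℝ =>
        1 / 2 * Real.log (1 + (((z + (t : ℂ) * v) ^ N).re ^ 2 +
          ((z + (t : ℂ) * v) ^ N).im ^ 2)) + c := by
      funext t
      show 1 / 2 * Real.log (1 + ‖(z + (t : ℂ) * v) ^ N‖ ^ 2) + c = _
      rw [Complex.sq_norm, Complex.normSq_apply]
      ring_nf
    rw [hfun, h]
    simp
  have h1 : lap ((fs c).pow N).g0 z =
      iteratedDeriv 2 (fun t : ℝ => ((fs c).pow N).g0 (z + (t : ℂ) * 1)) 0 +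
      iteratedDeriv 2 (fun t : ℝ => ((fs c).pow N).g0 (z + (t : ℂ) * Complex.I)) 0 := by
    unfold lap
    simp
  rw [h1, hkey 1, hkey Complex.I]
  generalize (z ^ N) = h
  rw [Complex.sq_norm, Complex.sq_norm, Complex.normSq_apply, Complex.normSq_apply]
  have e1 : ∀ P : ℂ, P * Complex.I * Complex.I = -P := fun P => by
    rw [mul_assoc, Complex.I_mul_I]; ring
  generalize hP : (N : ℂ) * z ^ (N - 1) = P
  have e2 : (N : ℂ) * (((N - 1 : ℕ) : ℂ) * z ^ (N - 1 - 1) * Complex.I) * Complex.I =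
      -((N : ℂ) * (((N - 1 : ℕ) : ℂ) * z ^ (N - 1 - 1))) := by
    linear_combination ((N : ℂ) * (((N - 1 : ℕ) : ℂ) * z ^ (N - 1 - 1))) * Complex.I_mul_I
  rw [e2]
  simp only [mul_one]
  generalize (N : ℂ) * (((N - 1 : ℕ) : ℂ) * z ^ (N - 1 - 1)) = Q
  have hpos : (0 : ℝ) < 1 + (h.re ^ 2 + h.im ^ 2) := by positivity
  rw [← add_div, Complex.mul_I_re, Complex.mul_I_im, Complex.neg_re, Complex.neg_im]
  rw [show (1 + (h.re * h.re + h.im * h.im)) = 1 + (h.re ^ 2 + h.im ^ 2) by ring]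
  congr 1
  ring


theorem fs_eq_pow_one (c : ℝ) : (fs c).g0 = ((fs c).pow 1).g0 := by
  funext z
  show _ = (fs c).g0 (z ^ 1)
  rw [pow_one]

theorem lap_nonneg (c : ℝ) (N : ℕ) (z : ℂ) : 0 ≤ lap ((fs c).pow N).g0 z := by
  rw [lap_pow]
  positivity

theorem fs_ample {c : ℝ} (hc : 0 < c) : (fs c).IsArithmeticallyAmple := by
  have h0 : ∀ z, 0 < lap (fs c).g0 z := by
    intro z
    rw [fs_eq_pow_one, lap_pow]
    simp
    positivity
  refine ⟨by show (0 : ℤ) < 1; norm_num, h0, h0, c, hc, fun z => ?_⟩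
  have h1 : 0 ≤ Real.log (1 + ‖z‖ ^ 2) := Real.log_nonneg (by nlinarith [norm_nonneg z])
  constructor
  · show c ≤ 1 / 2 * Real.log (1 + ‖z‖ ^ 2) + c
    linarith
  · show c ≤ 1 / 2 * Real.log (1 + ‖z‖ ^ 2) + c
    linarith

theorem g_nonneg (c : ℝ) (z : ℂ) : c ≤ (fs c).g0 z ∧ c ≤ (fs c).g1 z := by
  have h1 : 0 ≤ Real.log (1 + ‖z‖ ^ 2) := Real.log_nonneg (by nlinarith [norm_nonneg z])
  constructor
  · show c ≤ 1 / 2 * Real.log (1 + ‖z‖ ^ 2) + c
    linarith
  · show c ≤ 1 / 2 * Real.log (1 + ‖z‖ ^ 2) + c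
    linarith

/-- the bundles `(fs c).pow N` -/
def Nice (c : ℝ) (L : HermitianLineBundle) : Prop := ∃ N : ℕ, L = (fs c).pow N

theorem nice_fs (c : ℝ) : Nice c (fs c) := ⟨1, by
  have h : ∀ L : HermitianLineBundle, L.pow 1 = L := by
    intro L
    rcases L with ⟨d, g0, g1, s0, s1, gl, re⟩
    simp [pow]
  rw [h]⟩

theorem deg_nonneg {c : ℝ} {L : HermitianLineBundle} (hL : Nice c L) : (0 : ℝ) ≤ L.deg := by
  obtain ⟨N, rfl⟩ := hL
  show (0 : ℝ) ≤ ((1 * (N : ℤ) : ℤ) : ℝ)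
  positivity

theorem pair_ge {c : ℝ} (hc : 0 < c) {L M : HermitianLineBundle} (hL : Nice c L) (hM : Nice c M) :
    L.deg * c ≤ L.pair M := by
  have hd := deg_nonneg hL
  obtain ⟨N, rfl⟩ := hM
  have h1 : c ≤ ((fs c).pow N).g1 0 := (g_nonneg c _).2
  have h2 : 0 ≤ ∫ z : ℂ, L.g0 z * lap ((fs c).pow N).g0 z := by
    refine integral_nonneg fun z => mul_nonneg ?_ (lap_nonneg c N z)
    obtain ⟨M, rfl⟩ := hL
    exact hc.le.trans (g_nonneg c _).1
  have h3 : 0 ≤ 1 / (2 * Real.pi) * ∫ z : ℂ, L.g0 z * lap ((fs c).pow N).g0 z :=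
    mul_nonneg (by positivity) h2
  unfold HermitianLineBundle.pair
  have h4 := mul_le_mul_of_nonneg_left h1 hd
  linarith

theorem pair_nonneg {c : ℝ} (hc : 0 < c) {L M : HermitianLineBundle} (hL : Nice c L)
    (hM : Nice c M) : 0 ≤ L.pair M :=
  (mul_nonneg (deg_nonneg hL) hc.le).trans (pair_ge hc hL hM)

theorem line_nonneg {c : ℝ} (hc : 0 < c) (l : List HermitianLineBundle) (hl : ∀ L ∈ l, Nice c L) :
    0 ≤ factorDeg Factor.line l := by
  match l with
  | [] => exact le_rfl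
  | [L] => exact deg_nonneg (hl L (by simp))
  | [L, M] => exact pair_nonneg hc (hl L (by simp)) (hl M (by simp))
  | _ :: _ :: _ :: _ => exact le_rfl

theorem nice_pull {c : ℝ} (n : ℕ) (i : Fin 3) : Nice c (pull e n (fun _ => fs c) i) := ⟨_, rfl⟩

/-- the lower bound for the arithmetic degrees on `(ℙ¹)³` -/
theorem lower {c : ℝ} (hc : 0 < c) (n : ℕ) : (4 : ℝ) ^ n * c ≤
    arithDeg (fun _ => Factor.line) (k := 4) fun s =>
      if (s : ℕ) < 2 then pull e n (fun _ => fs c) else fun _ => fs c := by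
  have hn : ∀ (s : Fin 4) (i : Fin 3), Nice c ((if (s : ℕ) < 2 then pull e n (fun _ => fs c)
      else fun _ => fs c) i) := by
    intro s i
    split_ifs
    · exact nice_pull n i
    · exact nice_fs c
  have h0 := Finset.single_le_sum (s := (Finset.univ : Finset (Fin 4 → Fin 3)))
    (f := fun σ => ∏ i, factorDeg Factor.line
      (((List.finRange 4).filter (fun s => σ s = i)).map
        (fun s : Fin 4 => (if (s : ℕ) < 2 then pull e n (fun _ => fs c) else fun _ => fs c) i)))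
    (fun σ _ => Finset.prod_nonneg fun i _ => line_nonneg hc _ (by
      intro L hL
      obtain ⟨s, _, rfl⟩ := List.mem_map.1 hL
      exact hn s i)) (Finset.mem_univ (![0, 1, 2, 2] : Fin 4 → Fin 3))
  refine le_trans ?_ h0
  have e0 : (List.finRange 4).filter (fun s => (![0, 1, 2, 2] : Fin 4 → Fin 3) s = 0) = [0] := by
    decide
  have e1 : (List.finRange 4).filter (fun s => (![0, 1, 2, 2] : Fin 4 → Fin 3) s = 1) = [1] := by
    decide
  have e2 : (List.finRange 4).filter (fun s => (![0, 1, 2, 2] : Fin 4 → Fin 3) s = 2) =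
      [2, 3] := by
    decide
  show _ ≤ ∏ i, factorDeg Factor.line _
  rw [Fin.prod_univ_three, e0, e1, e2]
  show _ ≤ ((1 * ((2 ^ n : ℕ) : ℤ) : ℤ) : ℝ) * ((1 * ((2 ^ n : ℕ) : ℤ) : ℤ) : ℝ) *
    (fs c).pair (fs c)
  have h1 : c ≤ (fs c).pair (fs c) := by
    have h := pair_ge hc (nice_fs c) (nice_fs c)
    have h' : ((fs c).deg : ℝ) = 1 := by
      show ((1 : ℤ) : ℝ) = 1
      norm_num
    rw [h', one_mul] at h
    exact h
  have h2 : ((1 * ((2 ^ n : ℕ) : ℤ) : ℤ) : ℝ) * ((1 * ((2 ^ n : ℕ) : ℤ) : ℤ) : ℝ) = 4 ^ n := by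
    push_cast
    rw [one_mul, ← mul_pow]
    norm_num
  rw [h2]
  exact mul_le_mul_of_nonneg_left h1 (by positivity)

/-- the arithmetic degrees on the curve -/
theorem curve_deg (c : ℝ) (n : ℕ) :
    arithDeg V (k := 1 + 1) (fun _ => pull e n (fun _ => fs c)) =
      2 * ((1 / 2 * Real.log (1 + ((2 : ℝ) ^ (2 ^ n)) ^ 2) + c) +
        (1 / 2 * Real.log (1 + ((3 : ℝ) ^ (2 ^ n)) ^ 2) + c)) + (fs c).pair (fs c) := by
  have hsum : ∀ g : (Fin 2 → Fin 3) → ℝ, ∑ σ, g σ = ∑ i : Fin 3, ∑ j : Fin 3, g ![i, j] := by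
    intro g
    rw [← (finTwoArrowEquiv (Fin 3)).symm.sum_comp, Fintype.sum_prod_type]
    rfl
  have hp : (fs c).pow (1 ^ n) = fs c := by
    have h : ∀ L : HermitianLineBundle, L.pow 1 = L := by
      intro L
      rcases L with ⟨d, g0, g1, s0, s1, gl, re⟩
      simp [pow]
    rw [one_pow, h]
  have a0 : pull e n (fun _ => fs c) 0 = (fs c).pow (2 ^ n) := rfl
  have a1 : pull e n (fun _ => fs c) 1 = (fs c).pow (2 ^ n) := rfl
  have a2 : pull e n (fun _ => fs c) 2 = fs c := hp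
  have v0 : V 0 = Factor.point 2 := rfl
  have v1 : V 1 = Factor.point 3 := rfl
  have v2 : V 2 = Factor.line := rfl
  unfold arithDeg
  rw [hsum]
  simp only [Fin.prod_univ_three, Fin.sum_univ_three, v0, v1, v2, a0, a1, a2]
  have g2 : ((fs c).pow (2 ^ n)).g0 2 = 1 / 2 * Real.log (1 + ((2 : ℝ) ^ (2 ^ n)) ^ 2) + c := by
    show 1 / 2 * Real.log (1 + ‖(2 : ℂ) ^ (2 ^ n)‖ ^ 2) + c = _
    rw [norm_pow]
    norm_num
  have g3 : ((fs c).pow (2 ^ n)).g0 3 = 1 / 2 * Real.log (1 + ((3 : ℝ) ^ (2 ^ n)) ^ 2) + c := by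
    show 1 / 2 * Real.log (1 + ‖(3 : ℂ) ^ (2 ^ n)‖ ^ 2) + c = _
    rw [norm_pow]
    norm_num
  have hd : ((fs c).deg : ℝ) = 1 := by
    show ((1 : ℤ) : ℝ) = 1
    norm_num
  simp [List.finRange_succ, factorDeg]
  rw [g2, g3, hd]
  ring


/-! ### Growth rates -/

theorem tendsto_root {B K : ℝ} (hB : 0 < B) (hK : 0 < K) :
    Tendsto (fun n : ℕ => (B ^ n * K) ^ (1 / (n : ℝ))) atTop (𝓝 B) := by
  have h1 : Tendsto (fun n : ℕ => B * K ^ (1 / (n : ℝ))) atTop (𝓝 (B * K ^ (0 : ℝ))) :=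
    ((tendsto_const_nhds (x := K)).rpow tendsto_one_div_atTop_nhds_zero_nat
      (Or.inl hK.ne')).const_mul B
  rw [Real.rpow_zero, mul_one] at h1
  refine h1.congr' ?_
  filter_upwards [eventually_gt_atTop 0] with n hn
  rw [Real.mul_rpow (by positivity) hK.le, one_div, Real.pow_rpow_inv_natCast hB.le hn.ne']

theorem growth_eq {u : ℕ → ℝ} {B K₁ K₂ : ℝ} (hB : 0 < B) (h1 : 0 < K₁)
    (hl : ∀ n, B ^ n * K₁ ≤ u n) (hu : ∀ n, u n ≤ B ^ n * K₂) : growth u = (B : EReal) := by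
  have h2 : 0 < K₂ := by
    have h := (hl 0).trans (hu 0)
    simp only [pow_zero, one_mul] at h
    linarith
  have hpos : ∀ n, 0 ≤ B ^ n * K₁ := fun n => by positivity
  have ht : Tendsto (fun n : ℕ => (u n) ^ (1 / (n : ℝ))) atTop (𝓝 B) :=
    tendsto_of_tendsto_of_tendsto_of_le_of_le (tendsto_root hB h1) (tendsto_root hB h2)
      (fun n => Real.rpow_le_rpow (hpos n) (hl n) (by positivity))
      (fun n => Real.rpow_le_rpow ((hpos n).trans (hl n)) (hu n) (by positivity))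
  exact ((continuous_coe_real_ereal.tendsto B).comp ht).limsup_eq

theorem le_growth {u : ℕ → ℝ} {B K : ℝ} (hB : 0 < B) (h1 : 0 < K)
    (hl : ∀ n, B ^ n * K ≤ u n) : (B : EReal) ≤ growth u := by
  have h0 : growth (fun n => B ^ n * K) = (B : EReal) :=
    growth_eq hB h1 (fun n => le_rfl) (fun n => le_rfl)
  rw [← h0]
  refine limsup_le_limsup (Eventually.of_forall fun n => ?_)
  exact EReal.coe_le_coe_iff.2 (Real.rpow_le_rpow (by positivity) (hl n) (by positivity))

theorem log_bounds {a : ℝ} (ha : 1 ≤ a) (n : ℕ) :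
    2 ^ n * Real.log a ≤ 1 / 2 * Real.log (1 + (a ^ (2 ^ n)) ^ 2) ∧
      1 / 2 * Real.log (1 + (a ^ (2 ^ n)) ^ 2) ≤ 2 ^ n * Real.log a + Real.log 2 := by
  have h1 : 1 ≤ a ^ (2 ^ n) := one_le_pow₀ ha
  have h2 : Real.log ((a ^ (2 ^ n)) ^ 2) = 2 * (2 ^ n * Real.log a) := by
    rw [Real.log_pow, Real.log_pow]
    push_cast
    ring
  constructor
  · have h3 : Real.log ((a ^ (2 ^ n)) ^ 2) ≤ Real.log (1 + (a ^ (2 ^ n)) ^ 2) :=
      Real.log_le_log (by positivity) (by linarith)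
    rw [h2] at h3
    linarith
  · have h3 : Real.log (1 + (a ^ (2 ^ n)) ^ 2) ≤ Real.log (2 * (a ^ (2 ^ n)) ^ 2) :=
      Real.log_le_log (by positivity) (by nlinarith)
    rw [Real.log_mul (by norm_num) (by positivity), h2] at h3
    have h4 : 0 ≤ Real.log 2 := Real.log_nonneg (by norm_num)
    linarith

theorem alpha_curve {c : ℝ} (hc : 0 < c) : alphaCycle e (fun _ => fs c) 1 V = ((2 : ℝ) : EReal) := by
  have hp : 0 ≤ (fs c).pair (fs c) := pair_nonneg hc (nice_fs c) (nice_fs c)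
  have hl2 : 0 < Real.log 2 := Real.log_pos (by norm_num)
  have hl3 : 0 < Real.log 3 := Real.log_pos (by norm_num)
  refine growth_eq (K₁ := 2 * (Real.log 2 + Real.log 3))
    (K₂ := 2 * (Real.log 2 + Real.log 3 + 2 * Real.log 2 + 2 * c) + (fs c).pair (fs c))
    (by norm_num) (by positivity) ?_ ?_
  · intro n
    rw [curve_deg]
    have h1 := (log_bounds (a := 2) (by norm_num) n).1
    have h2 := (log_bounds (a := 3) (by norm_num) n).1
    nlinarith
  · intro n
    rw [curve_deg]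
    have h1 := (log_bounds (a := 2) (by norm_num) n).2
    have h2 := (log_bounds (a := 3) (by norm_num) n).2
    have h3 : (1 : ℝ) ≤ 2 ^ n := one_le_pow₀ (by norm_num)
    have h4 : 2 * (2 * Real.log 2 + 2 * c) + (fs c).pair (fs c) ≤
        2 ^ n * (2 * (2 * Real.log 2 + 2 * c) + (fs c).pair (fs c)) :=
      le_mul_of_one_le_left (by positivity) h3
    nlinarith

theorem alpha_map {c : ℝ} (hc : 0 < c) : ((4 : ℝ) : EReal) ≤ alphaMap e (fun _ => fs c) 2 :=
  le_growth (by norm_num) hc fun n => lower hc n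

/-! ### Zariski density -/

theorem dominate {ι : Type} [DecidableEq ι] (μ : ι → ℕ) (hμ : Function.Injective μ)
    (hpos : ∀ k, 0 < μ k) (c : ι → ℂ) (s : Finset ι)
    (h : ∀ n : ℕ, ∑ k ∈ s, c k * ((μ k : ℂ)) ^ (2 ^ n) = 0) : ∀ k ∈ s, c k = 0 := by
  induction s using Finset.induction_on_max_value μ with
  | empty => simp
  | insert a s ha hmax ih =>
    have hlt : ∀ k ∈ s, μ k < μ a := fun k hk =>
      lt_of_le_of_ne (hmax k hk) fun h' => ha (hμ h' ▸ hk)
    have h2 : Tendsto (fun n : ℕ => 2 ^ n) atTop (atTop : Filter ℕ) :=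
      tendsto_pow_atTop_atTop_of_one_lt (by norm_num)
    have hca : c a = 0 := by
      have ht : Tendsto (fun n : ℕ => c a + ∑ k ∈ s, c k * ((μ k : ℂ) / (μ a : ℂ)) ^ (2 ^ n)) atTop
          (𝓝 (c a + ∑ k ∈ s, c k * 0)) := by
        refine tendsto_const_nhds.add (tendsto_finsetSum _ fun k hk => ?_)
        refine Tendsto.const_mul _ ?_
        refine (tendsto_pow_atTop_nhds_zero_of_norm_lt_one ?_).comp h2
        rw [norm_div, Complex.norm_natCast, Complex.norm_natCast]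
        rw [div_lt_one (by exact_mod_cast hpos a)]
        exact_mod_cast hlt k hk
      have hz : (fun n : ℕ => c a + ∑ k ∈ s, c k * ((μ k : ℂ) / (μ a : ℂ)) ^ (2 ^ n)) =
          fun _ => 0 := by
        funext n
        have h3 := h n
        rw [Finset.sum_insert ha] at h3
        have hne : ((μ a : ℂ)) ^ (2 ^ n) ≠ 0 := pow_ne_zero _ (by exact_mod_cast (hpos a).ne')
        have h4 : (c a + ∑ k ∈ s, c k * ((μ k : ℂ) / (μ a : ℂ)) ^ (2 ^ n)) * (μ a : ℂ) ^ (2 ^ n) =
            0 := by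
          rw [add_mul, Finset.sum_mul, ← h3]
          congr 1
          refine Finset.sum_congr rfl fun k _ => ?_
          rw [div_pow, mul_assoc, div_mul_cancel₀ _ hne]
        exact (mul_eq_zero.1 h4).resolve_right hne
      rw [hz] at ht
      have h5 := tendsto_nhds_unique ht tendsto_const_nhds
      simpa using h5
    have hs : ∀ n : ℕ, ∑ k ∈ s, c k * ((μ k : ℂ)) ^ (2 ^ n) = 0 := by
      intro n
      have h3 := h n
      rw [Finset.sum_insert ha, hca, zero_mul, zero_add] at h3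
      exact h3
    intro k hk
    rcases Finset.mem_insert.1 hk with rfl | hk
    · exact hca
    · exact ih hs k hk

theorem iterate_eq (e : Fin 3 → ℕ) (n : ℕ) (x : Fin 3 → ℂ) :
    (affineMap e)^[n] x = fun i => x i ^ (e i ^ n) := by
  induction n with
  | zero => funext i; simp
  | succ n ih =>
    rw [Function.iterate_succ_apply', ih]
    funext i
    show (x i ^ (e i ^ n)) ^ e i = _
    rw [← pow_mul, pow_succ]

theorem mu_inj : Function.Injective (fun m : Fin 3 →₀ ℕ => 2 ^ m 0 * 3 ^ m 1 * 5 ^ m 2) := by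
  intro m m' h
  have h2 := congrArg (padicValNat 2) h
  have h3 := congrArg (padicValNat 3) h
  have h5 := congrArg (padicValNat 5) h
  have f2 : Fact (Nat.Prime 2) := ⟨by norm_num⟩
  have f3 : Fact (Nat.Prime 3) := ⟨by norm_num⟩
  have f5 : Fact (Nat.Prime 5) := ⟨by norm_num⟩
  have e23 : padicValNat 2 3 = 0 := padicValNat_primes (by norm_num)
  have e25 : padicValNat 2 5 = 0 := padicValNat_primes (by norm_num)
  have e32 : padicValNat 3 2 = 0 := padicValNat_primes (by norm_num)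
  have e35 : padicValNat 3 5 = 0 := padicValNat_primes (by norm_num)
  have e52 : padicValNat 5 2 = 0 := padicValNat_primes (by norm_num)
  have e53 : padicValNat 5 3 = 0 := padicValNat_primes (by norm_num)
  simp only [padicValNat.mul (pow_ne_zero _ (by norm_num : (2 : ℕ) ≠ 0))
    (pow_ne_zero _ (by norm_num : (3 : ℕ) ≠ 0)), padicValNat.mul
    (mul_ne_zero (pow_ne_zero _ (by norm_num : (2 : ℕ) ≠ 0))
      (pow_ne_zero _ (by norm_num : (3 : ℕ) ≠ 0))) (pow_ne_zero _ (by norm_num : (5 : ℕ) ≠ 0)),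
    padicValNat.pow, padicValNat_self, e23, e25, e32, e35, e52, e53,
    mul_one, mul_zero, add_zero, zero_add] at h2 h3 h5
  ext i
  fin_cases i
  · exact h2
  · exact h3
  · exact h5

theorem dense (p : MvPolynomial (Fin 3) ℂ)
    (hp : ∀ n : ℕ, ∀ x ∈ points V, MvPolynomial.eval ((affineMap e)^[n] x) p = 0) : p = 0 := by
  classical
  have hx : ∀ n : ℕ, (![2, 3, 5 ^ (2 ^ n)] : Fin 3 → ℂ) ∈ points V := by
    intro n i a hi
    fin_cases i
    · have h1 : Factor.point 2 = Factor.point a := hi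
      injection h1 with h2
      subst h2
      simp
    · have h1 : Factor.point 3 = Factor.point a := hi
      injection h1 with h2
      subst h2
      simp
    · exact absurd hi (by simp [V])
  have key : ∀ n : ℕ, ∑ m ∈ p.support, p.coeff m *
      (((2 ^ m 0 * 3 ^ m 1 * 5 ^ m 2 : ℕ)) : ℂ) ^ (2 ^ n) = 0 := by
    intro n
    rw [← hp n _ (hx n), MvPolynomial.eval_eq']
    refine Finset.sum_congr rfl fun m _ => ?_
    rw [iterate_eq, Fin.prod_univ_three]
    congr 1
    simp only [e, Matrix.cons_val_zero, Matrix.cons_val_one, Matrix.cons_val, one_pow, pow_one]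
    push_cast
    rw [mul_pow, mul_pow, ← pow_mul, ← pow_mul, ← pow_mul, ← pow_mul, ← pow_mul, ← pow_mul,
      mul_comm (m 0), mul_comm (m 1), mul_comm (m 2)]
  have h := dominate (fun m : Fin 3 →₀ ℕ => 2 ^ m 0 * 3 ^ m 1 * 5 ^ m 2) mu_inj
    (fun m => by positivity) (fun m => p.coeff m) p.support key
  rw [← MvPolynomial.support_eq_empty]
  refine Finset.eq_empty_of_forall_notMem fun m hm => ?_
  exact MvPolynomial.mem_support_iff.1 hm (h m hm)

/-- **The counterexample.** There is an arithmetically ample `H` on `(ℙ¹)³` such that for the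
endomorphism `f (z 0, z 1, z 2) = (z 0 ^ 2, z 1 ^ 2, z 2)` and the curve `V = {(2, 3)} × ℙ¹`, whose
orbit is Zariski dense, `α₂(f; V) = 2 < 4 ≤ α₂(f)`. -/
theorem result : ∃ H : Fin 3 → HermitianLineBundle, (∀ i, (H i).IsArithmeticallyAmple) ∧
    (∀ p : MvPolynomial (Fin 3) ℂ,
      (∀ n : ℕ, ∀ x ∈ points V, MvPolynomial.eval ((affineMap e)^[n] x) p = 0) → p = 0) ∧
    alphaCycle e H 1 V = 2 ∧ 4 ≤ alphaMap e H 2 := by
  refine ⟨fun _ => fs 1, fun _ => fs_ample one_pos, dense, ?_, ?_⟩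
  · rw [alpha_curve one_pos]
    rfl
  · refine le_trans (le_of_eq ?_) (alpha_map one_pos)
    rfl

end Pool.Agent.Results.MP_cefe55_nt.VerticalCurve
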